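import Pool.Agent.Y276.El.Main

/-!
# One subsequence which is near unconditional at all scales, and `K(δ) ≤ 24`

The question of Dilworth, Odell, Schlumprecht and Zsák asks whether the Elton constants `K(δ)` are
bounded. We prove `K(δ) ≤ 24` for all `δ`, and a statement with one subsequence for all `δ`: for
every sequence of thresholds `d 0, d 1, ...` there is a single subsequence of basis constant at most
`1 + ε` whose `j`-th tail is `d j`-near unconditional with constant `24 + ε`, and in which the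
projection on a set `G` of coefficients is bounded by `48 + ε` as soon as the coefficients on `G`
are at least `d j` for some `j` below `G`.
-/

set_option autoImplicit false

open Filter Topology

namespace Pool.Agent.Results.MP_4833ba_an.OneSubsequence

/-- `x` is a basic sequence: every vector of its closed linear span has a unique
norm-convergent expansion `∑ a_i x_i`. -/
def IsBasicSequence {X : Type*} [NormedAddCommGroup X] [NormedSpace ℝ X] (x : ℕ → X) : Prop :=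
  ∀ y ∈ closure (Submodule.span ℝ (Set.range x) : Set X),
    ∃! a : ℕ → ℝ, Tendsto (fun n => ∑ i ∈ Finset.range n, a i • x i) atTop (𝓝 y)

/-- The basis constant of `x` is at most `K`: every natural projection
`∑ a_i x_i ↦ ∑_{i < m} a_i x_i` onto an initial segment has norm at most `K`. -/
def BasisConstantLE {X : Type*} [NormedAddCommGroup X] [NormedSpace ℝ X] (x : ℕ → X)
    (K : ℝ) : Prop :=
  ∀ (a : ℕ → ℝ) (y : X),
    Tendsto (fun n => ∑ i ∈ Finset.range n, a i • x i) atTop (𝓝 y) →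
      ∀ m : ℕ, ‖∑ i ∈ Finset.range m, a i • x i‖ ≤ K * ‖y‖

/-- `x` is normalized. -/
def Normalized {X : Type*} [NormedAddCommGroup X] (x : ℕ → X) : Prop := ∀ n, ‖x n‖ = 1

/-- `x` is weakly null. -/
def WeaklyNull {X : Type*} [NormedAddCommGroup X] [NormedSpace ℝ X] (x : ℕ → X) : Prop :=
  ∀ f : X →L[ℝ] ℝ, Tendsto (fun n => f (x n)) atTop (𝓝 0)

/-- `x` is a normalized basic sequence that is `δ`-near unconditional with constant `K`. -/
def NearUnconditional {X : Type*} [NormedAddCommGroup X] [NormedSpace ℝ X] (δ K : ℝ)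
    (x : ℕ → X) : Prop :=
  Normalized x ∧ IsBasicSequence x ∧ BasisConstantLE x K ∧
    ∀ (k : ℕ) (a : ℕ → ℝ), (∀ i ≤ k, |a i| ≤ 1) →
      ∀ G : Finset ℕ, (∀ i ∈ G, i ≤ k ∧ δ ≤ |a i|) →
        ‖∑ n ∈ G, a n • x n‖ ≤ K * ‖∑ n ∈ Finset.range (k + 1), a n • x n‖

/-- `K ≥ 1` is admissible for `δ`: every normalized weakly null sequence in every real Banach
space has a subsequence that is `δ`-near unconditional with constant `K`. -/
def Admissible.{u} (δ K : ℝ) : Prop :=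
  1 ≤ K ∧ ∀ (X : Type u) [NormedAddCommGroup X] [NormedSpace ℝ X] [CompleteSpace X]
    (x : ℕ → X), Normalized x → WeaklyNull x →
      ∃ φ : ℕ → ℕ, StrictMono φ ∧ NearUnconditional δ K (x ∘ φ)

/-- The constant `K(δ)`: the infimum of all admissible `K`. -/
noncomputable def eltonK.{u} (δ : ℝ) : ℝ := sInf {K : ℝ | Admissible.{u} δ K}

/-- the partial sum inequality bounds the basis constant -/
theorem basisConstantLE_of {X : Type*} [NormedAddCommGroup X] [NormedSpace ℝ X] (x : ℕ → X)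
    (B K : ℝ) (hBK : B ≤ K)
    (hb : ∀ (a : ℕ → ℝ) (m n : ℕ), m ≤ n →
      ‖∑ i ∈ Finset.range m, a i • x i‖ ≤ B * ‖∑ i ∈ Finset.range n, a i • x i‖) :
    BasisConstantLE x K := by
  intro a y hy m
  have h1 : Tendsto (fun n => B * ‖∑ i ∈ Finset.range n, a i • x i‖) atTop
      (𝓝 (B * ‖y‖)) := (hy.norm).const_mul B
  have h2 : ‖∑ i ∈ Finset.range m, a i • x i‖ ≤ B * ‖y‖ :=
    ge_of_tendsto h1 (eventually_atTop.2 ⟨m, fun n hn => hb a m n hn⟩)
  exact h2.trans (mul_le_mul_of_nonneg_right hBK (norm_nonneg y))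

theorem one_subsequence {X : Type*} [NormedAddCommGroup X] [NormedSpace ℝ X] [CompleteSpace X]
    (x : ℕ → X) (hx : Normalized x) (hw : WeaklyNull x) (d : ℕ → ℝ) (hd : ∀ j, 0 < d j)
    (ε : ℝ) (hε : 0 < ε) :
    ∃ φ : ℕ → ℕ, StrictMono φ ∧ BasisConstantLE (x ∘ φ) (1 + ε) ∧
      (∀ j : ℕ, NearUnconditional (d j) (24 + ε) (fun i => x (φ (j + i)))) ∧
      ∀ (k : ℕ) (a : ℕ → ℝ), (∀ i ≤ k, |a i| ≤ 1) →
        ∀ (j : ℕ) (G : Finset ℕ), (∀ i ∈ G, j ≤ i ∧ i ≤ k ∧ d j ≤ |a i|) →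
          ‖∑ n ∈ G, a n • x (φ n)‖ ≤
            (48 + ε) * ‖∑ n ∈ Finset.range (k + 1), a n • x (φ n)‖ := by
  obtain ⟨φ, hφ, hb, hR, hQ⟩ := Pool.Agent.Y276.El.all_scales x hx hw d hd (min 1 ε)
    (lt_min one_pos hε)
  have hm1 : min 1 ε ≤ 1 := min_le_left _ _
  have hm2 : min 1 ε ≤ ε := min_le_right _ _
  have hb2 : ∀ (a : ℕ → ℝ) (m n : ℕ), m ≤ n →
      ‖∑ i ∈ Finset.range m, a i • x (φ i)‖ ≤ 2 * ‖∑ i ∈ Finset.range n, a i • x (φ i)‖ := by
    intro a m n hmn
    exact (hb a m n hmn).trans (mul_le_mul_of_nonneg_right (by linarith) (norm_nonneg _))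
  refine ⟨φ, hφ, basisConstantLE_of (x ∘ φ) (1 + min 1 ε) (1 + ε) (by linarith) hb, ?_, ?_⟩
  · intro j
    have hbj : ∀ (a : ℕ → ℝ) (m n : ℕ), m ≤ n →
        ‖∑ i ∈ Finset.range m, a i • x (φ (j + i))‖ ≤
          2 * ‖∑ i ∈ Finset.range n, a i • x (φ (j + i))‖ :=
      Elton955.Fin.hb_sub (x := fun i => x (φ i)) hb2 (ψ := fun i => j + i)
        (fun a b h => Nat.add_lt_add_left h j)
    refine ⟨fun n => hx _, ?_, ?_, ?_⟩
    · exact Elton955.Grun.grunblum (fun i => x (φ (j + i)))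
        (fun n h => by have := hx (φ (j + n)); rw [h, norm_zero] at this; norm_num at this) 2 hbj
    · exact basisConstantLE_of (fun i => x (φ (j + i))) 2 (24 + ε) (by linarith) hbj
    · intro k a ha G hG
      refine (hR j (k + 1) a G (fun i hi => ha i (Nat.lt_succ_iff.1 hi))
        (fun i hi => Finset.mem_range.2 (Nat.lt_succ_iff.2 (hG i hi).1))
        (fun i hi => (hG i hi).2)).trans ?_
      exact mul_le_mul_of_nonneg_right (by linarith) (norm_nonneg _)
  · intro k a ha j G hG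
    refine (hQ (k + 1) a j G (fun i hi => ha i (Nat.lt_succ_iff.1 hi))
      (fun i hi => Finset.mem_range.2 (Nat.lt_succ_iff.2 (hG i hi).2.1))
      (fun i hi => ⟨(hG i hi).1, (hG i hi).2.2⟩)).trans ?_
    exact mul_le_mul_of_nonneg_right (by linarith) (norm_nonneg _)

/-- **Main result.** (1) `K(δ) ≤ 24` for all `δ`, and `24 + ε` is admissible. (2) One subsequence
for all scales, with arbitrary thresholds. -/
theorem result.{u} :
    (∀ δ : ℝ, 0 < δ → δ ≤ 1 →
      (∀ ε : ℝ, 0 < ε → Admissible.{u} δ (24 + ε)) ∧ eltonK.{u} δ ≤ 24) ∧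
    ∀ (X : Type u) [NormedAddCommGroup X] [NormedSpace ℝ X] [CompleteSpace X] (x : ℕ → X),
      Normalized x → WeaklyNull x → ∀ d : ℕ → ℝ, (∀ j, 0 < d j) → ∀ ε : ℝ, 0 < ε →
        ∃ φ : ℕ → ℕ, StrictMono φ ∧ BasisConstantLE (x ∘ φ) (1 + ε) ∧
          (∀ j : ℕ, NearUnconditional (d j) (24 + ε) (fun i => x (φ (j + i)))) ∧
          ∀ (k : ℕ) (a : ℕ → ℝ), (∀ i ≤ k, |a i| ≤ 1) →
            ∀ (j : ℕ) (G : Finset ℕ), (∀ i ∈ G, j ≤ i ∧ i ≤ k ∧ d j ≤ |a i|) →
              ‖∑ n ∈ G, a n • x (φ n)‖ ≤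
                (48 + ε) * ‖∑ n ∈ Finset.range (k + 1), a n • x (φ n)‖ := by
  refine ⟨fun δ hδ _ => ?_, fun X _ _ _ x hx hw d hd ε hε => one_subsequence x hx hw d hd ε hε⟩
  have key : ∀ ε : ℝ, 0 < ε → Admissible.{u} δ (24 + ε) := by
    intro ε hε
    refine ⟨by linarith, ?_⟩
    intro X _ _ _ x hx hw
    obtain ⟨φ, hφ, _, hN, _⟩ := one_subsequence x hx hw (fun _ => δ) (fun _ => hδ) ε hε
    refine ⟨φ, hφ, ?_⟩
    have h := hN 0
    simp only [Nat.zero_add] at h
    exact h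
  refine ⟨key, ?_⟩
  refine le_of_forall_pos_le_add fun ε hε => ?_
  exact csInf_le ⟨1, fun K hK => hK.1⟩ (key ε hε)

end Pool.Agent.Results.MP_4833ba_an.OneSubsequence
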